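import Pool.Agent.Q181.Toep.Conv

open Set Metric

namespace Pool.Agent.Results.MP_895317_an.SpectrumMeetsDisc

/-- The Hardy space `H²`: square summable sequences (of Taylor coefficients), with the norm
`‖f‖² = ∑ |fₙ|²`. -/
def Hardy : Type := lp (fun _ : ℕ => ℂ) 2

noncomputable instance instHardyGroup : NormedAddCommGroup Hardy :=
  (lp.normedAddCommGroup : NormedAddCommGroup (lp (fun _ : ℕ => ℂ) 2))

noncomputable instance instHardySpace : NormedSpace ℂ Hardy :=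
  (inferInstance : NormedSpace ℂ (lp (fun _ : ℕ => ℂ) 2))

/-- The holomorphic function `f(z) = ∑ fₙ zⁿ` of an element of `H²`. -/
noncomputable def value (f : Hardy) (z : ℂ) : ℂ := ∑' n : ℕ, f.1 n * z ^ n

/-- `T` is hypercyclic: some orbit `{Tⁿ x : n ≥ 0}` is dense. -/
def IsHypercyclic (T : Hardy →L[ℂ] Hardy) : Prop := ∃ x : Hardy, DenseRange fun n : ℕ => (⇑T)^[n] x

/-- `T = γ S^* + T_φ` is the Toeplitz operator with symbol `Φ(z) = γ/z + φ(z)`:
`(T f)(z) = γ (f(z) - f(0)) / z + φ(z) f(z)` in the punctured disc. -/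
def IsToeplitz (γ : ℂ) (φ : ℂ → ℂ) (T : Hardy →L[ℂ] Hardy) : Prop :=
  ∀ (f : Hardy) (z : ℂ), z ∈ ball (0 : ℂ) 1 \ {0} →
    value (T f) z = γ * ((value f z - value f 0) / z) + φ z * value f z

/-- If `φ ∈ H^∞` and the Toeplitz operator `T = T_Φ` with symbol `Φ(z) = γ/z + φ(z)` is
hypercyclic on `H²`, then `𝔻 ∩ σ(T_Φ) = 𝔻 ∩ (ℂ ∖ Φ(𝔻 ∖ {0}))`, and this set is not empty. -/
theorem result (γ : ℂ) (φ : ℂ → ℂ) (hφ : DifferentiableOn ℂ φ (ball 0 1))
    (_hb : ∃ C : ℝ, ∀ z ∈ ball (0 : ℂ) 1, ‖φ z‖ ≤ C)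
    (T : Hardy →L[ℂ] Hardy) (hT : IsToeplitz γ φ T) (hyp : IsHypercyclic T) :
    ball (0 : ℂ) 1 ∩ spectrum ℂ T =
      ball (0 : ℂ) 1 ∩ ((fun z => γ / z + φ z) '' (ball (0 : ℂ) 1 \ {0}))ᶜ ∧
    (ball (0 : ℂ) 1 ∩ ((fun z => γ / z + φ z) '' (ball (0 : ℂ) 1 \ {0}))ᶜ).Nonempty := by
  have hA : MP895317.Acts γ φ T := by
    intro f z hz
    have h0 : MP895317.ev f 0 = f.1 0 := MP895317.ev_zero f
    by_cases hz0 : z = 0
    · subst hz0
      rw [h0]
      change (0 : ℂ) * _ = (γ + 0 * φ 0) * f.1 0 - γ * f.1 0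
      ring
    · have h1 : MP895317.ev (T f) z = γ * ((MP895317.ev f z - MP895317.ev f 0) / z)
        + φ z * MP895317.ev f z := hT f z ⟨mem_ball_zero_iff.2 hz, hz0⟩
      rw [h0] at h1
      change z * MP895317.ev (T f) z = (γ + z * φ z) * MP895317.ev f z - γ * f.1 0
      rw [h1]; field_simp; ring
  have hT' : MP895317.Hypercyclic T := MP895317.hypercyclic_of_iterate hyp
  constructor
  · ext lam
    refine and_congr_right fun _ => ?_
    constructor
    · intro hs hmem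
      obtain ⟨z, hz, rfl⟩ := hmem
      exact MP895317.not_spectrum_of_image hφ hA hT' (mem_ball_zero_iff.1 hz.1) hz.2 hs
    · intro hmem
      apply MP895317.spectrum_of_not_image (MP895317.gamma_ne hA hT') hφ hA
      intro z hz hz0 heq
      exact hmem ⟨z, ⟨mem_ball_zero_iff.2 hz, hz0⟩, heq⟩
  · obtain ⟨w, hw, hn⟩ := Set.not_subset.1 (MP895317.not_covered hφ hA hT')
    exact ⟨w, hw, hn⟩

end Pool.Agent.Results.MP_895317_an.SpectrumMeetsDisc
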